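import Pool.Agent.ExtCnt.Circ
import Pool.Agent.ExtSum.Tors
import Pool.Agent.ExtSum.Tors2

/-! The socle of the first argument: finiteness, elements of infinite height, and the consequence
for the second argument. -/

set_option autoImplicit false

namespace Pool.Agent.ExtCnt

open Cardinal Pool.Agent.ExtSum

section
variable {D C A : Type} [AddCommGroup D] [AddCommGroup C] [AddCommGroup A]

/-- (P1): every class is the sum of a `p`-torsion class and a class divisible by `p`. -/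
def P1 (π : D →+ C) (A : Type) [AddCommGroup A] (p : ℕ) : Prop :=
  ∀ f : A →+ C, ∃ (τ f' : A →+ C) (g'' g : A →+ D) (k : ℕ),
    (∀ x, p ^ k • τ x = π (g x)) ∧ ∀ x, f x = τ x + p • f' x + π (g'' x)

/-- (P2): there are countably many classes modulo `p`. -/
def P2 (π : D →+ C) (A : Type) [AddCommGroup A] (p : ℕ) : Prop :=
  ∃ s : ℕ → (A →+ C), ∀ f : A →+ C, ∃ (n : ℕ) (f' : A →+ C) (g : A →+ D),
    ∀ x, f x = s n x + p • f' x + π (g x)

/-- (P3): `p ^ N` times the group of the classes is not divisible by `p`. -/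
def P3 (π : D →+ C) (A : Type) [AddCommGroup A] (p : ℕ) : Prop :=
  ∀ N : ℕ, ∃ f : A →+ C, ∀ (f' : A →+ C) (g : A →+ D),
    ¬ ∀ x, p ^ N • f x = p ^ (N + 1) • f' x + π (g x)

/-- the socle -/
def Sok (A : Type) [AddCommGroup A] (p : ℕ) : AddSubgroup A where
  carrier := {a | p • a = 0}
  zero_mem' := smul_zero _
  add_mem' := by
    intro a b (ha : p • a = 0) (hb : p • b = 0)
    show p • (a + b) = 0
    rw [smul_add, ha, hb, add_zero]
  neg_mem' := by
    intro a (ha : p • a = 0)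
    show p • (-a) = 0
    rw [smul_neg, ha, neg_zero]

theorem mem_Sok {p : ℕ} {a : A} : a ∈ Sok A p ↔ p • a = 0 := Iff.rfl

theorem not_countable_fun {ι : Type} [Infinite ι] (p : ℕ) [Fact p.Prime] :
    ¬ Countable (ι → ZMod p) := by
  intro h
  classical
  have h1 : Function.Injective fun (S : Set ι) (i : ι) => if i ∈ S then (1 : ZMod p) else 0 := by
    intro S S' hS
    ext i
    have := congrFun hS i
    by_cases h1 : i ∈ S <;> by_cases h2 : i ∈ S' <;> simp_all
  have h2 : Countable (Set ι) := h1.countable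
  have h3 : #(Set ι) ≤ ℵ₀ := Cardinal.mk_le_aleph0_iff.2 h2
  rw [Cardinal.mk_set] at h3
  exact absurd (h3.trans (Cardinal.aleph0_le_mk ι)) (not_le.2 (Cardinal.cantor _))

/-- a vector space over `ℤ/p` with a countable dual is finite -/
theorem finite_vec (p : ℕ) [Fact p.Prime] {V : Type} [AddCommGroup V] [Module (ZMod p) V]
    (F : (V →ₗ[ZMod p] ZMod p) → ℕ) (hF : ∀ χ χ', F χ = F χ' → ∀ v, χ v - χ' v ≠ 1) :
    Finite V := by
  classical
  have hinj : Function.Injective F := by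
    intro χ χ' hχ
    by_contra hne
    obtain ⟨v, hv⟩ : ∃ v, χ v ≠ χ' v := by
      by_contra h
      push Not at h
      exact hne (LinearMap.ext h)
    have hv : χ v - χ' v ≠ 0 := sub_ne_zero.2 hv
    apply hF χ χ' hχ ((χ v - χ' v)⁻¹ • v)
    rw [map_smul, map_smul, smul_eq_mul, smul_eq_mul, ← mul_sub, inv_mul_cancel₀ hv]
  have hcount : Countable (V →ₗ[ZMod p] ZMod p) := hinj.countable
  let bs := Module.Basis.ofVectorSpace (ZMod p) V
  have h6 : Countable (Module.Basis.ofVectorSpaceIndex (ZMod p) V → ZMod p) :=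
    (bs.constr (ZMod p)).injective.countable
  have h7 : Finite (Module.Basis.ofVectorSpaceIndex (ZMod p) V) := by
    by_contra hinf
    rw [not_finite_iff_infinite] at hinf
    exact not_countable_fun p h6
  have h8 : Module.Finite (ZMod p) V := Module.Finite.of_basis bs
  exact Module.finite_of_finite (ZMod p)

/-- Step 1: the socle is finite -/
theorem socle_finite {π : D →+ C} (hD : Dvb D) (hC : Dvb C) (hπ : Function.Surjective π)
    (p : ℕ) (hp : p.Prime) (h2 : P2 π A p) (h3 : P3 π A p) : Finite (Sok A p) := by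
  have : Fact p.Prime := ⟨hp⟩
  -- `B` is not `p`-divisible
  obtain ⟨b, hb, hbp⟩ : ∃ b ∈ π.ker, ∀ b' ∈ π.ker, p • b' ≠ b := by
    by_contra hcon
    push Not at hcon
    obtain ⟨f, hf⟩ := h3 0
    obtain ⟨f', g, hfg⟩ := ext_pdiv (A := A) hD hC hπ p hcon f
    refine hf f' g fun x => ?_
    rw [pow_zero, one_smul, zero_add, pow_one, hfg x, add_comm]
  obtain ⟨d, hd⟩ := hD p hp.ne_zero b
  have hπd : p • π d = 0 := by rw [← map_nsmul, hd]; exact hb
  -- the module structure of the socle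
  have hVp : ∀ v : Sok A p, p • v = 0 := fun v => Subtype.ext v.2
  let _ : Module (ZMod p) (Sok A p) := AddCommGroup.zmodModule hVp
  let κ : ZMod p →+ C := ZMod.lift p ⟨zmultiplesHom C (π d), by
    rw [zmultiplesHom_apply, natCast_zsmul, hπd]⟩
  have hκ1 : κ 1 = π d := by
    have h4 := ZMod.lift_coe p (⟨zmultiplesHom C (π d), by
      rw [zmultiplesHom_apply, natCast_zsmul, hπd]⟩ : {f : ℤ →+ C // f p = 0}) 1
    rw [Int.cast_one] at h4
    rw [show κ 1 = _ from h4]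
    show zmultiplesHom C (π d) 1 = π d
    rw [zmultiplesHom_apply, one_smul]
  have hf : ∀ χ : Sok A p →+ ZMod p, ∃ f : A →+ C, ∀ v : Sok A p, f v = κ (χ v) := by
    intro χ
    obtain ⟨f, hf⟩ := fact hC (Sok A p).subtype (κ.comp χ) (by
      intro a ha
      have : a = 0 := Subtype.ext ha
      rw [this, map_zero])
    exact ⟨f, fun v => hf v⟩
  choose f hf using hf
  obtain ⟨s, hs⟩ := h2
  choose n f' g hfg using hs
  refine finite_vec p (fun χ => n (f χ.toAddMonoidHom)) ?_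
  intro χ χ' hχ w hw1
  have hw0 : p • (w : A) = 0 := w.2
  have h6 := hfg (f χ.toAddMonoidHom) w
  have h7 := hfg (f χ'.toAddMonoidHom) w
  rw [hf, ← map_nsmul, hw0, map_zero, add_zero] at h6 h7
  set e := g (f χ.toAddMonoidHom) w - g (f χ'.toAddMonoidHom) w with he
  have h5 : π d = π e := by
    have h8 : κ 1 = κ (χ.toAddMonoidHom w) - κ (χ'.toAddMonoidHom w) := by
      rw [← map_sub]
      exact congrArg κ hw1.symm
    have hχ' : n (f χ.toAddMonoidHom) = n (f χ'.toAddMonoidHom) := hχ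
    rw [← hκ1, h8, h6, h7, hχ', he, map_sub]
    abel
  have hpe : p • e = 0 := by
    rw [he, smul_sub, ← map_nsmul, ← map_nsmul, hw0, map_zero, map_zero, sub_self]
  refine hbp (d - e) ?_ ?_
  · rw [AddMonoidHom.mem_ker, map_sub, ← h5, sub_self]
  · rw [smul_sub, hpe, sub_zero, hd]

/-- Step 2: some multiple of the `p`-part is `p`-divisible, and the elements of the socle in it
have infinite height -/
theorem exists_N (p : ℕ) (hfin : Finite (Sok A p)) :
    ∃ N : ℕ, (∀ z : A, p • z = 0 → (∃ w, p ^ N • w = z) → ∀ n, ∃ w, p ^ n • w = z) ∧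
      ∀ w : A, (∃ k : ℕ, p ^ k • w = 0) →
        ∃ w', (∃ k : ℕ, p ^ k • w' = 0) ∧ p ^ N • w = p ^ (N + 1) • w' := by
  have h1 : ∀ z : Sok A p, ∃ n : ℕ, (∃ w, p ^ n • w = (z : A)) → ∀ m, ∃ w, p ^ m • w = (z : A) := by
    intro z
    by_cases h : ∀ m, ∃ w, p ^ m • w = (z : A)
    · exact ⟨0, fun _ => h⟩
    · push Not at h
      obtain ⟨m, hm⟩ := h
      exact ⟨m, fun ⟨w, hw⟩ => absurd hw (hm w)⟩
  choose n hn using h1
  obtain ⟨N, hN⟩ := (Set.finite_range n).bddAbove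
  have hA : ∀ z : A, p • z = 0 → (∃ w, p ^ N • w = z) → ∀ m, ∃ w, p ^ m • w = z := by
    rintro z hz ⟨w, hw⟩
    have hle : n ⟨z, hz⟩ ≤ N := hN ⟨⟨z, hz⟩, rfl⟩
    refine hn ⟨z, hz⟩ ⟨p ^ (N - n ⟨z, hz⟩) • w, ?_⟩
    rw [← mul_smul, ← pow_add, Nat.add_sub_cancel' hle, hw]
  refine ⟨N, hA, ?_⟩
  have hB : ∀ k : ℕ, ∀ w : A, p ^ k • p ^ N • w = 0 →
      ∃ w', (∃ j : ℕ, p ^ j • w' = 0) ∧ p ^ N • w = p ^ (N + 1) • w' := by
    intro k
    induction k with
    | zero =>
      intro w hw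
      rw [pow_zero, one_smul] at hw
      exact ⟨0, ⟨0, smul_zero _⟩, by rw [hw, smul_zero]⟩
    | succ k ih =>
      intro w hw
      have hz : p • (p ^ k • p ^ N • w) = 0 := by
        rw [← mul_smul, ← pow_succ', hw]
      obtain ⟨w₁, hw₁⟩ := hA _ hz ⟨p ^ k • w, by rw [smul_comm]⟩ (N + k + 1)
      have hw₂ : p ^ k • p ^ N • (w - p • w₁) = 0 := by
        rw [smul_sub, smul_sub, ← hw₁, sub_eq_zero, ← mul_smul, ← mul_smul, ← pow_add, ← pow_succ]
        congr 2
        omega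
      obtain ⟨w₃, ⟨j, hj⟩, hw₃⟩ := ih _ hw₂
      have hw₁' : p ^ (N + k + 2) • w₁ = 0 := by
        rw [show N + k + 2 = (N + k + 1) + 1 by ring, pow_succ', mul_smul, hw₁, hz]
      refine ⟨w₁ + w₃, ⟨N + k + 2 + j, ?_⟩, ?_⟩
      · rw [smul_add, pow_add, mul_smul, mul_smul, hj, smul_zero, add_zero, smul_comm, hw₁',
          smul_zero]
      · rw [smul_add, ← hw₃, smul_sub, ← mul_smul, ← pow_succ]
        abel
  rintro w ⟨k, hk⟩
  exact hB k w (by rw [smul_comm, hk, smul_zero])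

/-- Step 3: there is a non-zero element of the socle of infinite height -/
theorem exists_z {π : D →+ C} (hD : Dvb D) (hC : Dvb C) (p : ℕ) (hp : p.Prime) (N : ℕ)
    (hN : ∀ z : A, p • z = 0 → (∃ w, p ^ N • w = z) → ∀ n, ∃ w, p ^ n • w = z)
    (h3 : P3 π A p) : ∃ z : A, z ≠ 0 ∧ p • z = 0 ∧ ∀ n, ∃ w, p ^ n • w = z := by
  classical
  obtain ⟨w, ⟨k, hk⟩, hw⟩ : ∃ w : A, (∃ k : ℕ, p ^ k • w = 0) ∧ p ^ N • w ≠ 0 := by
    by_contra hcon
    push Not at hcon
    obtain ⟨f, hf⟩ := h3 N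
    have hpN : p ^ (N + 1) ≠ 0 := pow_ne_zero _ hp.ne_zero
    obtain ⟨χ, hχ⟩ := fact hC ((p ^ (N + 1)) • (AddCommGroup.torsion A).subtype)
      ((p ^ N) • (f.comp (AddCommGroup.torsion A).subtype)) (by
        intro a ha
        have h4 : p ^ (N + 1) • (a : A) = 0 := ha
        show p ^ N • f (a : A) = 0
        rw [← map_nsmul, hcon a ⟨N + 1, h4⟩, map_zero])
    have hχ' : ∀ t ∈ AddCommGroup.torsion A, p ^ (N + 1) • χ t = p ^ N • f t := by
      intro t ht
      rw [← map_nsmul]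
      exact hχ ⟨t, ht⟩
    let u : A →+ C := p ^ N • f - p ^ (N + 1) • χ
    have hu : ∀ x, u x = p ^ N • f x - p ^ (N + 1) • χ x := fun x => rfl
    obtain ⟨y, ⟨f'', -, rfl⟩, hy⟩ := extIm_divisible (π := π) hD hC (p ^ (N + 1)) hpN
      (QuotientAddGroup.mk' _ u) ⟨u, ⟨0, fun t ht => by
        rw [AddMonoidHom.zero_apply, map_zero, hu, hχ' t ht, sub_self]⟩, rfl⟩
    rw [← map_nsmul] at hy
    obtain ⟨g, hg⟩ := Tors2_eq hy
    refine hf (χ + f'') (-g) fun x => ?_
    have h5 := hg x trivial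
    rw [hu] at h5
    have h6 : (p ^ (N + 1) • f'') x = p ^ (N + 1) • f'' x := rfl
    rw [h6] at h5
    rw [AddMonoidHom.neg_apply, map_neg, h5, AddMonoidHom.add_apply, smul_add]
    abel
  have hex : ∃ k : ℕ, p ^ k • p ^ N • w = 0 := ⟨k, by rw [smul_comm, hk, smul_zero]⟩
  set j := Nat.find hex with hj
  have hj1 : p ^ j • p ^ N • w = 0 := Nat.find_spec hex
  have hj0 : j ≠ 0 := by
    intro h0
    rw [h0, pow_zero, one_smul] at hj1
    exact hw hj1
  obtain ⟨i, hi⟩ := Nat.exists_eq_succ_of_ne_zero hj0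
  have hz0 : p ^ i • p ^ N • w ≠ 0 := Nat.find_min hex (by omega)
  have hz1 : p • (p ^ i • p ^ N • w) = 0 := by
    rw [← mul_smul, ← pow_succ', ← Nat.succ_eq_add_one, ← hi, hj1]
  exact ⟨_, hz0, hz1, hN _ hz1 ⟨p ^ i • w, by rw [smul_comm]⟩⟩

/-- Step 4: the elements of order `p` of `C` come from elements of `p`-power order of `D` -/
theorem S4_of {π : D →+ C} (hC : Dvb C) (p : ℕ) (hp : p.Prime) (z : A)
    (hz0 : z ≠ 0) (hz : p • z = 0) (hzn : ∀ n, ∃ w, p ^ n • w = z) (h1 : P1 π A p) (c : C)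
    (hc : p • c = 0) : ∃ (d : D) (k : ℕ), p ^ k • d = 0 ∧ π d = c := by
  obtain ⟨f, hf⟩ := fact hC (zmultiplesHom A z) (zmultiplesHom C c) (by
    intro n hn
    exact zsmul_of_dvd hc (dvd_of_zsmul hp hz0 hz hn))
  have hfz : f z = c := by
    have := hf 1
    simpa using this
  obtain ⟨τ, f', g'', g, k, hτ, hfx⟩ := h1 f
  obtain ⟨z', hz'⟩ := hzn k
  refine ⟨g z' + g'' z, k + 1, ?_, ?_⟩
  · rw [smul_add, ← map_nsmul, pow_succ', mul_smul, hz', hz, map_zero, zero_add, mul_smul,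
      smul_comm, ← map_nsmul, hz, map_zero, smul_zero]
  · have h5 := hfx z
    rw [← map_nsmul, hz, map_zero, add_zero, hfz] at h5
    rw [h5, map_add, ← hτ z', ← map_nsmul, hz']

end

end Pool.Agent.ExtCnt
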