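import Pool.Agent.ExtCnt.Circ

/-! The countable lifting lemma: if every element of order `p` of `X` is the image of an element
of `E` of `p`-power order then every homomorphism of a countable torsion-free group into `X[p]`
lifts to `E`. -/

set_option autoImplicit false

namespace Pool.Agent.ExtCnt

open Pool.Agent.ExtSum DirectSum

section
variable {F E X : Type} [AddCommGroup F] [AddCommGroup E] [AddCommGroup X]

/-- `{u | a u ∈ K + ℤ y for some a ≠ 0}` -/
def ext1 (K : AddSubgroup F) (y : F) : AddSubgroup F where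
  carrier := {u | ∃ a : ℤ, a ≠ 0 ∧ ∃ b : ℤ, a • u - b • y ∈ K}
  zero_mem' := ⟨1, one_ne_zero, 0, by simp⟩
  add_mem' := by
    rintro u v ⟨a, ha, b, hb⟩ ⟨a', ha', b', hb'⟩
    refine ⟨a * a', mul_ne_zero ha ha', a' * b + a * b', ?_⟩
    have h1 : (a * a') • (u + v) - (a' * b + a * b') • y =
        a' • (a • u - b • y) + a • (a' • v - b' • y) := by
      simp only [smul_add, smul_sub, add_smul, mul_smul]
      rw [smul_comm a a' u]
      abel
    rw [h1]
    exact K.add_mem (K.zsmul_mem hb _) (K.zsmul_mem hb' _)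
  neg_mem' := by
    rintro u ⟨a, ha, b, hb⟩
    refine ⟨a, ha, -b, ?_⟩
    have h1 : a • (-u) - (-b) • y = -(a • u - b • y) := by
      rw [smul_neg, neg_smul]; abel
    rw [h1]
    exact K.neg_mem hb

theorem step (π : E →+ X) (hE : Dvb E) (p : ℕ) (hp : p.Prime)
    (S4 : ∀ c : X, p • c = 0 → ∃ (d : E) (k : ℕ), p ^ k • d = 0 ∧ π d = c)
    (f : F →+ X) (hf : ∀ u, p • f u = 0) (K : AddSubgroup F)
    (hK : ∀ n : ℤ, n ≠ 0 → ∀ x : F, n • x ∈ K → x ∈ K) (h : F →+ E)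
    (h1 : ∀ u, p • π (h u) = 0) (h2 : ∀ u ∈ K, π (h u) = f u) (y : F) :
    ∃ (K' : AddSubgroup F) (h' : F →+ E), K ≤ K' ∧ y ∈ K' ∧
      (∀ n : ℤ, n ≠ 0 → ∀ x : F, n • x ∈ K' → x ∈ K') ∧ (∀ u ∈ K, h' u = h u) ∧
      (∀ u, p • π (h' u) = 0) ∧ ∀ u ∈ K', π (h' u) = f u := by
  have hle : K ≤ ext1 K y := fun u hu => ⟨1, one_ne_zero, 0, by simpa using hu⟩
  have hmem : y ∈ ext1 K y := ⟨1, one_ne_zero, 1, by simp⟩
  have hpure : ∀ n : ℤ, n ≠ 0 → ∀ x : F, n • x ∈ ext1 K y → x ∈ ext1 K y := by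
    rintro n hn x ⟨a, ha, b, hb⟩
    exact ⟨a * n, mul_ne_zero ha hn, b, by rwa [mul_smul]⟩
  by_cases hall : ∀ u ∈ ext1 K y, π (h u) = f u
  · exact ⟨ext1 K y, h, hle, hmem, hpure, fun u _ => rfl, h1, hall⟩
  push Not at hall
  obtain ⟨u₀, hu₀, hne⟩ := hall
  -- the difference
  let g : F →+ X := f - π.comp h
  have hg : ∀ u, g u = f u - π (h u) := fun u => rfl
  have hgK : ∀ u ∈ K, g u = 0 := fun u hu => by rw [hg, h2 u hu, sub_self]
  have hgp : ∀ u, p • g u = 0 := fun u => by rw [hg, smul_sub, hf, h1, sub_zero]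
  let gb : F ⧸ K →+ X := QuotientAddGroup.lift K g hgK
  have hgb : ∀ u : F, gb (QuotientAddGroup.mk' K u) = g u := fun u => rfl
  have hgbp : ∀ u, p • gb u = 0 := by
    intro u
    obtain ⟨u, rfl⟩ := QuotientAddGroup.mk'_surjective K u
    rw [hgb, hgp]
  set c : X := g u₀ with hc
  have hc0 : c ≠ 0 := by
    rw [hc, hg]
    exact fun h3 => hne (sub_eq_zero.1 h3).symm
  obtain ⟨d, k, hd, hdc⟩ := S4 c (hgp u₀)
  obtain ⟨h'', h3, h4⟩ := os π hE p hp (F := F ⧸ K) (by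
    intro n hn x hx
    obtain ⟨x, rfl⟩ := QuotientAddGroup.mk'_surjective K x
    rw [← map_nsmul, QuotientAddGroup.mk'_apply, QuotientAddGroup.eq_zero_iff] at hx
    rw [QuotientAddGroup.mk'_apply, QuotientAddGroup.eq_zero_iff]
    exact hK n (by exact_mod_cast hn) x (by rwa [natCast_zsmul])) gb hgbp c hc0 (hgp u₀) d k hdc hd
  -- `K'/K` has rank one, so `g` has values in `ℤ c` there
  have key : ∀ u ∈ ext1 K y, ∃ a : ℤ, g u = a • c := by
    rintro u ⟨a₁, ha₁, b₁, hb₁⟩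
    obtain ⟨a₀, ha₀, b₀, hb₀⟩ := hu₀
    have hb₀' : b₀ ≠ 0 := by
      rintro rfl
      rw [zero_smul, sub_zero] at hb₀
      exact hc0 (hgK u₀ (hK a₀ ha₀ u₀ hb₀))
    have hA : a₁ * b₀ ≠ 0 := mul_ne_zero ha₁ hb₀'
    have h5 : (a₁ * b₀) • u - (b₁ * a₀) • u₀ ∈ K := by
      have h6 : (a₁ * b₀) • u - (b₁ * a₀) • u₀ =
          b₀ • (a₁ • u - b₁ • y) - b₁ • (a₀ • u₀ - b₀ • y) := by
        simp only [smul_sub, mul_smul]
        rw [smul_comm b₀ a₁ u, smul_comm b₀ b₁ y]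
        abel
      rw [h6]
      exact K.sub_mem (K.zsmul_mem hb₁ _) (K.zsmul_mem hb₀ _)
    -- divide by the greatest common divisor
    have hd0 : (Int.gcd (a₁ * b₀) (b₁ * a₀) : ℤ) ≠ 0 := by
      intro h7
      exact hA (Int.gcd_eq_zero_iff.1 (by exact_mod_cast h7)).1
    obtain ⟨A, B, hAB, hA1, hB1⟩ : ∃ A B : ℤ, IsCoprime A B ∧
        a₁ * b₀ = (Int.gcd (a₁ * b₀) (b₁ * a₀) : ℤ) * A ∧
        b₁ * a₀ = (Int.gcd (a₁ * b₀) (b₁ * a₀) : ℤ) * B := by
      have hpos : 0 < Int.gcd (a₁ * b₀) (b₁ * a₀) := by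
        rcases Nat.eq_zero_or_pos (Int.gcd (a₁ * b₀) (b₁ * a₀)) with h8 | h8
        · exact absurd (by exact_mod_cast h8) hd0
        · exact h8
      refine ⟨(a₁ * b₀) / (Int.gcd (a₁ * b₀) (b₁ * a₀) : ℤ),
        (b₁ * a₀) / (Int.gcd (a₁ * b₀) (b₁ * a₀) : ℤ), ?_, ?_, ?_⟩
      · exact Int.isCoprime_iff_gcd_eq_one.2 (Int.gcd_ediv_gcd_ediv_gcd hpos)
      · exact (Int.mul_ediv_cancel' (Int.gcd_dvd_left _ _)).symm
      · exact (Int.mul_ediv_cancel' (Int.gcd_dvd_right _ _)).symm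
    have h9 : A • u - B • u₀ ∈ K := by
      refine hK _ hd0 _ ?_
      rw [smul_sub, ← mul_smul, ← mul_smul, ← hA1, ← hB1]
      exact h5
    have h10 : A • g u = B • c := by
      have := hgK _ h9
      rw [map_sub, map_zsmul, map_zsmul, sub_eq_zero] at this
      exact this
    have hpA : ¬ (p : ℤ) ∣ A := by
      intro hdvd
      have h11 : A • g u = 0 := zsmul_of_dvd (hgp u) hdvd
      rw [h11] at h10
      have h12 : (p : ℤ) ∣ B := dvd_of_zsmul hp hc0 (hgp u₀) h10.symm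
      exact (Nat.prime_iff_prime_int.1 hp).not_isUnit (hAB.isUnit_of_dvd' hdvd h12)
    obtain ⟨r, s, hrs⟩ : IsCoprime A (p : ℤ) := by
      refine (((Nat.prime_iff_prime_int.1 hp).coprime_iff_not_dvd).2 hpA).symm
    refine ⟨r * B, ?_⟩
    have h13 : (r * A + s * p) • g u = g u := by rw [hrs, one_smul]
    rw [← h13, add_smul, mul_smul, mul_smul, natCast_zsmul, hgp, smul_zero, add_zero, h10,
      mul_smul]
  refine ⟨ext1 K y, h + h''.comp (QuotientAddGroup.mk' K), hle, hmem, hpure, fun u hu => ?_,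
    fun u => ?_, fun u hu => ?_⟩
  · have h6 : QuotientAddGroup.mk' K u = 0 := by
      rw [QuotientAddGroup.mk'_apply, QuotientAddGroup.eq_zero_iff]; exact hu
    rw [AddMonoidHom.add_apply, AddMonoidHom.comp_apply, h6, map_zero, add_zero]
  · rw [AddMonoidHom.add_apply, map_add, smul_add, h1, zero_add, AddMonoidHom.comp_apply, h3]
  · obtain ⟨a, ha⟩ := key u hu
    rw [AddMonoidHom.add_apply, map_add, AddMonoidHom.comp_apply, h4 _ a (by rw [hgb, ha]), ← ha,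
      hg]
    abel

/-- the countable lifting lemma -/
theorem lift_count [Countable F] (π : E →+ X) (hE : Dvb E) (p : ℕ) (hp : p.Prime)
    (S4 : ∀ c : X, p • c = 0 → ∃ (d : E) (k : ℕ), p ^ k • d = 0 ∧ π d = c)
    (htf : ∀ n : ℕ, n ≠ 0 → ∀ x : F, n • x = 0 → x = 0)
    (f : F →+ X) (hf : ∀ u, p • f u = 0) : ∃ h : F →+ E, ∀ u, π (h u) = f u := by
  obtain ⟨y, hy⟩ := exists_surjective_nat F
  let St : Type := {s : AddSubgroup F × (F →+ E) //
    (∀ n : ℤ, n ≠ 0 → ∀ x : F, n • x ∈ s.1 → x ∈ s.1) ∧ (∀ u, p • π (s.2 u) = 0) ∧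
      ∀ u ∈ s.1, π (s.2 u) = f u}
  have hstep : ∀ (s : St) (x : F), ∃ t : St, s.1.1 ≤ t.1.1 ∧ x ∈ t.1.1 ∧
      ∀ u ∈ s.1.1, t.1.2 u = s.1.2 u := by
    rintro ⟨⟨K, h⟩, hK, h1, h2⟩ x
    obtain ⟨K', h', h3, h4, h5, h6, h7, h8⟩ := step π hE p hp S4 f hf K hK h h1 h2 x
    exact ⟨⟨(K', h'), h5, h7, h8⟩, h3, h4, h6⟩
  choose nx hn1 hn2 hn3 using hstep
  let s₀ : St := ⟨(⊥, 0), by
    intro n hn x hx
    rw [AddSubgroup.mem_bot] at hx ⊢
    rcases Int.natAbs_eq n with h1 | h1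
    · rw [h1, natCast_zsmul] at hx
      exact htf _ (Int.natAbs_ne_zero.2 hn) x hx
    · rw [h1, neg_smul, neg_eq_zero, natCast_zsmul] at hx
      exact htf _ (Int.natAbs_ne_zero.2 hn) x hx, by simp, by
    intro u hu
    rw [AddSubgroup.mem_bot] at hu
    simp [hu]⟩
  let s : ℕ → St := fun n => Nat.rec (motive := fun _ => St) s₀ (fun n t => nx t (y n)) n
  have hs : ∀ n, s (n + 1) = nx (s n) (y n) := fun n => rfl
  have hmono : Monotone fun n => (s n).1.1 := monotone_nat_of_le_succ fun n => by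
    rw [hs]; exact hn1 _ _
  obtain ⟨g, hg⟩ := glue hE (fun n => (s n).1.1) hmono (fun n => (s n).1.2) (by
    intro i j hij
    induction hij with
    | refl => intro x _; rfl
    | @step m hm ih =>
      intro x hx
      rw [← ih x hx]
      show (s (m + 1)).1.2 x = (s m).1.2 x
      rw [hs]
      exact hn3 _ _ x (hmono hm hx))
  refine ⟨g, fun u => ?_⟩
  obtain ⟨n, rfl⟩ := hy u
  have h1 : y n ∈ (s (n + 1)).1.1 := by rw [hs]; exact hn2 _ _
  rw [hg (n + 1) _ h1]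
  exact (s (n + 1)).2.2.2 _ h1

/-- `F` is isomorphic to a direct sum of countable groups. -/
def DSC (F : Type) [AddCommGroup F] : Prop :=
  ∃ (ι : Type) (G : ι → Type) (_ : ∀ i, AddCommGroup (G i)), (∀ i, Countable (G i)) ∧
    Nonempty (F ≃+ ⨁ i, G i)

theorem DSC_of_countable [h : Countable F] : DSC F := by
  classical
  refine ⟨Unit, fun _ => F, fun _ => inferInstance, fun _ => h, ⟨?_⟩⟩
  refine AddEquiv.ofBijective (DirectSum.of (fun _ : Unit => F) ()) ⟨DirectSum.of_injective _, ?_⟩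
  intro x
  induction x using DirectSum.induction_on with
  | zero => exact ⟨0, map_zero _⟩
  | of i x => exact ⟨x, rfl⟩
  | add x y hx hy =>
    obtain ⟨a, rfl⟩ := hx
    obtain ⟨b, rfl⟩ := hy
    exact ⟨a + b, map_add _ _ _⟩

/-- the lifting lemma for direct sums of countable groups -/
theorem lift_dsc (hF : DSC F) (π : E →+ X) (hE : Dvb E) (p : ℕ) (hp : p.Prime)
    (S4 : ∀ c : X, p • c = 0 → ∃ (d : E) (k : ℕ), p ^ k • d = 0 ∧ π d = c)
    (htf : ∀ n : ℕ, n ≠ 0 → ∀ x : F, n • x = 0 → x = 0)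
    (f : F →+ X) (hf : ∀ u, p • f u = 0) : ∃ h : F →+ E, ∀ u, π (h u) = f u := by
  classical
  obtain ⟨ι, G, _, hG, ⟨e⟩⟩ := hF
  have hi : ∀ i, ∃ h : G i →+ E, ∀ u, π (h u) = f (e.symm (DirectSum.of G i u)) := by
    intro i
    have : Countable (G i) := hG i
    refine lift_count (F := G i) π hE p hp S4 ?_
      ((f.comp e.symm.toAddMonoidHom).comp (DirectSum.of G i)) (fun u => hf _)
    intro n hn x hx
    have h1 : n • e.symm (DirectSum.of G i x) = 0 := by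
      rw [← map_nsmul, ← map_nsmul, hx, map_zero, map_zero]
    have h2 := htf n hn _ h1
    rw [AddEquiv.map_eq_zero_iff] at h2
    exact DirectSum.of_injective (β := G) i (by rw [h2, map_zero])
  choose h hh using hi
  let H : (⨁ i, G i) →+ E := DirectSum.toAddMonoid h
  have hH : π.comp H = f.comp e.symm.toAddMonoidHom := by
    apply DirectSum.addHom_ext
    intro i y
    show π (DirectSum.toAddMonoid h (DirectSum.of G i y)) = f (e.symm (DirectSum.of G i y))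
    rw [DirectSum.toAddMonoid_of, hh]
  refine ⟨H.comp e.toAddMonoidHom, fun u => ?_⟩
  have h1 := DFunLike.congr_fun hH (e u)
  have h2 : π (H (e u)) = f (e.symm (e u)) := h1
  rw [e.symm_apply_apply] at h2
  exact h2

end

end Pool.Agent.ExtCnt
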