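import Pool.Agent.ExtCnt.Socle
import Pool.Agent.ExtCnt.Lift
import Pool.Agent.ExtSum.Pres

/-! The main theorem: if `C/tC` is a direct sum of countable groups and `G = Ext(C,D)` satisfies (P1), (P2), (P3) then the
divisible part of `G` has no element of order `p`. -/

set_option autoImplicit false

namespace Pool.Agent.ExtCnt

open Cardinal Pool.Agent.ExtSum

section
variable {D C A : Type} [AddCommGroup D] [AddCommGroup C] [AddCommGroup A]

/-- Step 5: a homomorphism of a torsion-free direct sum of countable groups lifts if a multiple by a power of `p`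
does -/
theorem lift_pow {F : Type} [AddCommGroup F] (hF : DSC F) (π : D →+ C) (hD : Dvb D) (p : ℕ)
    (hp : p.Prime) (S4 : ∀ c : C, p • c = 0 → ∃ (d : D) (k : ℕ), p ^ k • d = 0 ∧ π d = c)
    (htf : ∀ n : ℕ, n ≠ 0 → ∀ x : F, n • x = 0 → x = 0) (N : ℕ) :
    ∀ (f : F →+ C) (g : F →+ D), (∀ u, p ^ N • f u = π (g u)) →
      ∃ h : F →+ D, ∀ u, π (h u) = f u := by
  induction N with
  | zero =>
    intro f g h
    exact ⟨g, fun u => by rw [← h u, pow_zero, one_smul]⟩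
  | succ N ih =>
    intro f g h
    obtain ⟨h₀, hh₀⟩ := fact hD (p • AddMonoidHom.id F) g (by
      intro a ha
      have : p • a = 0 := ha
      rw [htf p hp.ne_zero a this, map_zero])
    have hh₀' : ∀ u, p • h₀ u = g u := by
      intro u
      rw [← map_nsmul]
      exact hh₀ u
    obtain ⟨h₁, hh₁⟩ := lift_dsc hF π hD p hp S4 htf (p ^ N • f - π.comp h₀) (by
      intro u
      show p • (p ^ N • f u - π (h₀ u)) = 0
      rw [smul_sub, ← mul_smul, ← pow_succ', h, ← map_nsmul, hh₀', sub_self])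
    refine ih f (h₀ + h₁) fun u => ?_
    have h2 : π (h₁ u) = p ^ N • f u - π (h₀ u) := hh₁ u
    rw [AddMonoidHom.add_apply, map_add, h2]
    abel

/-- the elements of `p`-power order -/
def Tp (A : Type) [AddCommGroup A] (p : ℕ) : AddSubgroup A where
  carrier := {a | ∃ k : ℕ, p ^ k • a = 0}
  zero_mem' := ⟨0, smul_zero _⟩
  add_mem' := by
    rintro a b ⟨k, hk⟩ ⟨j, hj⟩
    refine ⟨k + j, ?_⟩
    rw [smul_add, pow_add, mul_smul, mul_smul, hj, smul_zero, add_zero, smul_comm, hk, smul_zero]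
  neg_mem' := by
    rintro a ⟨k, hk⟩
    exact ⟨k, by rw [smul_neg, hk, neg_zero]⟩

/-- the elements of finite order prime to `p` -/
def Tq (A : Type) [AddCommGroup A] (p : ℕ) : AddSubgroup A where
  carrier := {a | ∃ m : ℕ, m.Coprime p ∧ m • a = 0}
  zero_mem' := ⟨1, Nat.coprime_one_left p, smul_zero _⟩
  add_mem' := by
    rintro a b ⟨k, hk, hka⟩ ⟨j, hj, hjb⟩
    refine ⟨k * j, Nat.Coprime.mul_left hk hj, ?_⟩
    rw [smul_add, mul_smul, mul_smul, hjb, smul_zero, add_zero, smul_comm, hka, smul_zero]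
  neg_mem' := by
    rintro a ⟨k, hk, hka⟩
    exact ⟨k, hk, by rw [smul_neg, hka, neg_zero]⟩

theorem eq_zero_of_coprime {a : A} {k m : ℕ} (h : k.Coprime m) (hk : k • a = 0) (hm : m • a = 0) :
    a = 0 := by
  obtain ⟨r, s, hrs⟩ := Nat.isCoprime_iff_coprime.2 h
  have h1 : (r * (k : ℤ) + s * (m : ℤ)) • a = 0 := by
    rw [add_smul, mul_smul, mul_smul, natCast_zsmul, natCast_zsmul, hk, hm, smul_zero, smul_zero,
      add_zero]
  rwa [hrs, one_smul] at h1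

/-- `T = p T_{p'} + T_p` -/
theorem decomp (p : ℕ) (hp : p.Prime) (t : A) (ht : t ∈ AddCommGroup.torsion A) :
    ∃ t' ∈ Tq A p, ∃ s ∈ Tp A p, t = p • t' + s := by
  have h1 : IsOfFinAddOrder t := ht
  rw [isOfFinAddOrder_iff_nsmul_eq_zero] at h1
  obtain ⟨n, hn, hnt⟩ := h1
  obtain ⟨a, m, hm, rfl⟩ := Nat.exists_eq_pow_mul_and_not_dvd hn.ne' p hp.one_lt.ne'
  have hmp : m.Coprime p := ((Nat.Prime.coprime_iff_not_dvd hp).2 hm).symm
  have hcop : (p ^ (a + 1)).Coprime m := (Nat.Coprime.pow_right (a + 1) hmp).symm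
  obtain ⟨r, s, hrs⟩ := Nat.isCoprime_iff_coprime.2 hcop
  have h0 : m • p ^ a • t = 0 := by rw [← mul_smul, mul_comm, hnt]
  refine ⟨r • p ^ a • t, ⟨m, hmp, ?_⟩, s • m • t, ⟨a, ?_⟩, ?_⟩
  · rw [smul_comm, h0, smul_zero]
  · rw [smul_comm, ← mul_smul (p ^ a) m t, hnt, smul_zero]
  · have h2 : (r * ((p ^ (a + 1) : ℕ) : ℤ) + s * (m : ℤ)) • t = t := by rw [hrs, one_smul]
    rw [add_smul, mul_smul, mul_smul, natCast_zsmul, natCast_zsmul] at h2
    rw [smul_comm p r, ← mul_smul p (p ^ a) t, ← pow_succ', h2]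

theorem main_count {π : D →+ C} (hD : Dvb D) (hC : Dvb C) (hπ : Function.Surjective π)
    (hred : Red π.ker) (hcnt : DSC (A ⧸ AddCommGroup.torsion A)) (p : ℕ) (hp : p.Prime)
    (h1 : P1 π A p) (h2 : P2 π A p) (h3 : P3 π A p) (f : A →+ C)
    (hf : f ∈ Lft π (AddCommGroup.torsion A)) (g : A →+ D) (hfg : ∀ x, p • f x = π (g x)) :
    ∃ h : A →+ D, ∀ x, π (h x) = f x := by
  classical
  have hfin := socle_finite hD hC hπ p hp h2 h3
  obtain ⟨N, hN1, hN2⟩ := exists_N p hfin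
  obtain ⟨z, hz0, hz1, hz2⟩ := exists_z hD hC p hp N hN1 h3
  have S4 : ∀ c : C, p • c = 0 → ∃ (d : D) (k : ℕ), p ^ k • d = 0 ∧ π d = c :=
    fun c hc => S4_of hC p hp z hz0 hz1 hz2 h1 c hc
  set T := AddCommGroup.torsion A with hT
  have hTp : Tp A p ≤ T := by
    rintro t ⟨k, hk⟩
    show IsOfFinAddOrder t
    rw [isOfFinAddOrder_iff_nsmul_eq_zero]
    exact ⟨p ^ k, Nat.pos_of_ne_zero (pow_ne_zero _ hp.ne_zero), hk⟩
  have hTq : Tq A p ≤ T := by
    rintro t ⟨m, hm, hmt⟩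
    show IsOfFinAddOrder t
    rw [isOfFinAddOrder_iff_nsmul_eq_zero]
    refine ⟨m, Nat.pos_of_ne_zero ?_, hmt⟩
    rintro rfl
    exact hp.one_lt.ne' ((Nat.coprime_zero_left p).1 hm)
  -- make `f` kill the torsion
  obtain ⟨g₀, hg₀⟩ := hf
  let f₀ : A →+ C := f - π.comp g₀
  let g₁ : A →+ D := g - p • g₀
  have hf₀ : ∀ x, f₀ x = f x - π (g₀ x) := fun x => rfl
  have hg₁ : ∀ x, g₁ x = g x - p • g₀ x := fun x => rfl
  have hf₀T : ∀ t ∈ T, f₀ t = 0 := fun t ht => by rw [hf₀, hg₀ t ht, sub_self]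
  have hfg₀ : ∀ x, p • f₀ x = π (g₁ x) := by
    intro x
    rw [hf₀, hg₁, smul_sub, hfg, map_sub, map_nsmul]
  have hg₁T : ∀ t ∈ T, g₁ t ∈ π.ker := by
    intro t ht
    rw [AddMonoidHom.mem_ker, ← hfg₀, hf₀T t ht, smul_zero]
  -- `g₁` kills `p ^ N T_p`
  have hg₁p : ∀ w ∈ Tp A p, g₁ (p ^ N • w) = 0 := by
    intro w hw
    let S : AddSubgroup π.ker := (((Tp A p).map (p ^ N • AddMonoidHom.id A)).map g₁).comap
      π.ker.subtype
    have hS : S = ⊥ := by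
      apply hred
      rintro n hn ⟨x, hx⟩ hxS
      obtain ⟨_, ⟨v, hv, rfl⟩, hvx⟩ : ∃ y ∈ (Tp A p).map (p ^ N • AddMonoidHom.id A), g₁ y = x :=
        hxS
      have hvx : g₁ (p ^ N • v) = x := hvx
      obtain ⟨a, m, hm, rfl⟩ := Nat.exists_eq_pow_mul_and_not_dvd hn p hp.one_lt.ne'
      -- divide by `p ^ a`
      have hdiv : ∀ a : ℕ, ∀ v ∈ Tp A p, ∃ v' ∈ Tp A p, p ^ N • v = p ^ a • p ^ N • v' := by
        intro a
        induction a with
        | zero => exact fun v hv => ⟨v, hv, by rw [pow_zero, one_smul]⟩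
        | succ a ih =>
          intro v hv
          obtain ⟨v', hv', h4⟩ := ih v hv
          obtain ⟨v'', hv'', h5⟩ := hN2 v' hv'
          refine ⟨v'', hv'', ?_⟩
          rw [h4, h5, pow_succ' p N, mul_smul, ← mul_smul (p ^ a) p, ← pow_succ]
      obtain ⟨v', hv', h4⟩ := hdiv a v hv
      obtain ⟨k, hk⟩ := hv'
      have hcop : m.Coprime (p ^ k) :=
        Nat.Coprime.pow_right k ((Nat.Prime.coprime_iff_not_dvd hp).2 hm).symm
      obtain ⟨r, s, hrs⟩ := Nat.isCoprime_iff_coprime.2 hcop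
      have h5 : m • r • v' = v' := by
        have h6 : (r * (m : ℤ) + s * ((p ^ k : ℕ) : ℤ)) • v' = v' := by rw [hrs, one_smul]
        rw [add_smul, mul_smul, mul_smul, natCast_zsmul, natCast_zsmul, hk, smul_zero,
          add_zero, smul_comm] at h6
        exact h6
      have h7 : r • v' ∈ Tp A p := (Tp A p).zsmul_mem ⟨k, hk⟩ r
      refine ⟨⟨g₁ (p ^ N • r • v'), ?_⟩, ⟨p ^ N • r • v', ⟨r • v', h7, rfl⟩, rfl⟩, ?_⟩
      · exact hg₁T _ (T.nsmul_mem (hTp h7) _)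
      · apply Subtype.ext
        show (p ^ a * m) • g₁ (p ^ N • r • v') = x
        rw [← hvx, h4, mul_smul, ← map_nsmul, ← map_nsmul, smul_comm m (p ^ N), h5]
    have hmem : (⟨g₁ (p ^ N • w), hg₁T _ (T.nsmul_mem (hTp hw) _)⟩ : π.ker) ∈ S :=
      ⟨p ^ N • w, ⟨w, hw, rfl⟩, rfl⟩
    rw [hS, AddSubgroup.mem_bot] at hmem
    exact congrArg Subtype.val hmem
  -- the homomorphism `k`
  obtain ⟨k, hk⟩ := fact (A := ↥(Tq A p) × ↥(Tp A p)) (Y := A) hD
    (p • ((Tq A p).subtype.comp (AddMonoidHom.fst _ _)) +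
      (Tp A p).subtype.comp (AddMonoidHom.snd _ _))
    (g₁.comp ((Tq A p).subtype.comp (AddMonoidHom.fst _ _))) (by
      rintro ⟨⟨t, m, hm, hmt⟩, ⟨s, j, hj⟩⟩ hts
      have hts : p • t + s = 0 := hts
      show g₁ t = 0
      have hcop : m.Coprime (p ^ (j + 1)) := Nat.Coprime.pow_right _ hm
      have h4 : p ^ (j + 1) • t = 0 := by
        rw [pow_succ, mul_smul, eq_neg_of_add_eq_zero_left hts, smul_neg, hj, neg_zero]
      rw [eq_zero_of_coprime hcop hmt h4, map_zero])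
  have hk1 : ∀ t ∈ Tq A p, ∀ s ∈ Tp A p, k (p • t + s) = g₁ t := fun t ht s hs =>
    hk (⟨t, ht⟩, ⟨s, hs⟩)
  let f₁ : A →+ C := f₀ - π.comp k
  let g₂ : A →+ D := p ^ N • (g₁ - p • k)
  have hf₁T : T ≤ f₁.ker := by
    intro t ht
    rw [AddMonoidHom.mem_ker]
    show f₀ t - π (k t) = 0
    obtain ⟨t', ht', s, hs, rfl⟩ := decomp p hp t ht
    have h4 : π (g₁ t') = 0 := hg₁T t' (hTq ht')
    rw [hf₀T _ ht, hk1 t' ht' s hs, h4, sub_zero]
  have hg₂T : T ≤ g₂.ker := by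
    intro t ht
    rw [AddMonoidHom.mem_ker]
    show p ^ N • (g₁ t - p • k t) = 0
    obtain ⟨t', ht', s, hs, rfl⟩ := decomp p hp t ht
    rw [hk1 t' ht' s hs, map_add, map_nsmul, add_sub_cancel_left, ← map_nsmul, hg₁p s hs]
  let fb : A ⧸ T →+ C := QuotientAddGroup.lift T f₁ hf₁T
  let gb : A ⧸ T →+ D := QuotientAddGroup.lift T g₂ hg₂T
  obtain ⟨h, hh⟩ := lift_pow (F := A ⧸ T) hcnt π hD p hp S4 (by
    intro n hn x hx
    obtain ⟨x, rfl⟩ := QuotientAddGroup.mk'_surjective T x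
    rw [← map_nsmul, QuotientAddGroup.mk'_apply, QuotientAddGroup.eq_zero_iff] at hx
    rw [QuotientAddGroup.mk'_apply, QuotientAddGroup.eq_zero_iff]
    exact TorsA_mem_torsion hn hx) (N + 1) fb gb (by
    intro u
    obtain ⟨x, rfl⟩ := QuotientAddGroup.mk'_surjective T u
    show p ^ (N + 1) • (f₀ x - π (k x)) = π (p ^ N • (g₁ x - p • k x))
    rw [map_nsmul, map_sub, map_nsmul, ← hfg₀, ← smul_sub, pow_succ, mul_smul])
  refine ⟨g₀ + k + h.comp (QuotientAddGroup.mk' T), fun x => ?_⟩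
  have h4 : π (h (QuotientAddGroup.mk' T x)) = f₀ x - π (k x) := hh _
  show π (g₀ x + k x + h (QuotientAddGroup.mk' T x)) = f x
  rw [map_add, map_add, h4, hf₀]
  abel

/-- The group-theoretic form. -/
theorem main_group {π : D →+ C} (hD : Dvb D) (hC : Dvb C) (hπ : Function.Surjective π)
    (hred : Red π.ker) (hcnt : DSC (A ⧸ AddCommGroup.torsion A)) (p : ℕ) (hp : p.Prime)
    {G : Type} [AddCommGroup G] (e : G ≃+ ((A →+ C) ⧸ Lft π (⊤ : AddSubgroup A)))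
    (h1 : ∀ x : G, ∃ (t y : G) (k : ℕ), p ^ k • t = 0 ∧ x = t + p • y)
    (h2 : ∃ s : ℕ → G, ∀ x, ∃ (n : ℕ) (y : G), x = s n + p • y)
    (h3 : ∀ N : ℕ, ∃ x : G, ∀ y : G, p ^ N • x ≠ p ^ (N + 1) • y)
    (V : AddSubgroup G) (hV : ∀ n : ℕ, n ≠ 0 → ∀ x ∈ V, ∃ y ∈ V, n • y = x) (v : G) (hv : v ∈ V)
    (hpv : p • v = 0) : v = 0 := by
  let q : (A →+ C) →+ G := e.symm.toAddMonoidHom.comp
    (QuotientAddGroup.mk' (Lft π (⊤ : AddSubgroup A)))
  have hq : Function.Surjective q := e.symm.surjective.comp (QuotientAddGroup.mk'_surjective _)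
  have hq0 : ∀ f : A →+ C, q f = 0 ↔ ∃ g : A →+ D, ∀ x, f x = π (g x) := by
    intro f
    have h4 : q f = 0 ↔ f ∈ Lft π (⊤ : AddSubgroup A) := by
      show e.symm (QuotientAddGroup.mk' (Lft π (⊤ : AddSubgroup A)) f) = 0 ↔ _
      rw [AddEquiv.map_eq_zero_iff, QuotientAddGroup.mk'_apply, QuotientAddGroup.eq_zero_iff]
    rw [h4, mem_Lft]
    exact ⟨fun ⟨g, hg⟩ => ⟨g, fun x => (hg x trivial).symm⟩, fun ⟨g, hg⟩ => ⟨g, fun x _ =>
      (hg x).symm⟩⟩
  have hq1 : ∀ f f' : A →+ C, q f = q f' ↔ ∃ g : A →+ D, ∀ x, f x = f' x + π (g x) := by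
    intro f f'
    rw [← sub_eq_zero, ← map_sub, hq0]
    constructor
    · rintro ⟨g, hg⟩
      exact ⟨g, fun x => by rw [← hg x, AddMonoidHom.sub_apply]; abel⟩
    · rintro ⟨g, hg⟩
      exact ⟨g, fun x => by rw [AddMonoidHom.sub_apply, hg x]; abel⟩
  have H1 : P1 π A p := by
    intro f
    obtain ⟨t, y, k, htk, hx⟩ := h1 (q f)
    obtain ⟨τ, rfl⟩ := hq t
    obtain ⟨f', rfl⟩ := hq y
    rw [← map_nsmul, hq0] at htk
    obtain ⟨g, hg⟩ := htk
    rw [← map_nsmul, ← map_add, hq1] at hx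
    obtain ⟨g'', hg''⟩ := hx
    exact ⟨τ, f', g'', g, k, hg, hg''⟩
  have H2 : P2 π A p := by
    obtain ⟨s, hs⟩ := h2
    choose s' hs' using fun n => hq (s n)
    refine ⟨s', fun f => ?_⟩
    obtain ⟨n, y, hx⟩ := hs (q f)
    obtain ⟨f', rfl⟩ := hq y
    rw [← hs' n, ← map_nsmul, ← map_add, hq1] at hx
    obtain ⟨g, hg⟩ := hx
    exact ⟨n, f', g, hg⟩
  have H3 : P3 π A p := by
    intro N
    obtain ⟨x, hx⟩ := h3 N
    obtain ⟨f, rfl⟩ := hq x
    refine ⟨f, fun f' g hfg => ?_⟩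
    apply hx (q f')
    rw [← map_nsmul, ← map_nsmul, hq1]
    exact ⟨g, hfg⟩
  obtain ⟨f, rfl⟩ := hq v
  -- `f` lifts on the torsion
  have hfT : f ∈ Lft π (AddCommGroup.torsion A) := by
    let m : G →+ ((A →+ C) ⧸ Lft π (AddCommGroup.torsion A)) :=
      (QuotientAddGroup.map _ _ (AddMonoidHom.id _) (Lft_anti le_top)).comp e.toAddMonoidHom
    have hm : V.map m = ⊥ := by
      apply ext_torsion_reduced hD hC
      rintro n hn _ ⟨v, hv, rfl⟩
      obtain ⟨w, hw, hwv⟩ := hV n hn v hv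
      exact ⟨m w, ⟨w, hw, rfl⟩, by rw [← map_nsmul, hwv]⟩
    have h4 : m (q f) ∈ V.map m := ⟨_, hv, rfl⟩
    rw [hm, AddSubgroup.mem_bot] at h4
    have h5 : m (q f) = (f : (A →+ C) ⧸ Lft π (AddCommGroup.torsion A)) := by
      show QuotientAddGroup.map _ _ (AddMonoidHom.id _) (Lft_anti le_top)
        (e (e.symm (QuotientAddGroup.mk' (Lft π (⊤ : AddSubgroup A)) f))) = _
      rw [e.apply_symm_apply]
      rfl
    rw [h5] at h4
    exact (QuotientAddGroup.eq_zero_iff f).1 h4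
  rw [← map_nsmul, hq0] at hpv
  obtain ⟨g, hg⟩ := hpv
  rw [hq0]
  obtain ⟨h, hh⟩ := main_count hD hC hπ hred hcnt p hp H1 H2 H3 f hfT g hg
  exact ⟨h, fun x => (hh x).symm⟩

end

end Pool.Agent.ExtCnt
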