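import Pool.Agent.ExtCnt.Defs

/-! The group `Ext(ℤ(p^∞), ⊕ ℤ/pⁿ)`: the properties (P1), (P2), (P3). -/

set_option autoImplicit false

namespace Pool.Agent.ExtCnt

open Cardinal Pool.Agent.ExtSum DirectSum

section
variable {p : ℕ}

/-- the element `1/p^k` of `ℤ(p^∞)` -/
def zz (p k : ℕ) (hp : p.Prime) : Pruefer p :=
  ⟨frac ((p ^ k : ℕ) : ℚ) 1, k, by
    rw [← natCast_zsmul, ← map_zsmul, frac_zero (pow_ne_zero _ hp.ne_zero)]
    simp⟩

theorem zz_smul (hp : p.Prime) (k : ℕ) (n : ℤ) :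
    ((n • zz p k hp : Pruefer p) : QZ) = frac ((p ^ k : ℕ) : ℚ) n := by
  show n • frac ((p ^ k : ℕ) : ℚ) 1 = _
  rw [← map_zsmul, smul_eq_mul, mul_one]

theorem zz_zero (hp : p.Prime) {k : ℕ} {n : ℤ} (h : n • zz p k hp = 0) : ((p ^ k : ℕ) : ℤ) ∣ n := by
  rw [← frac_zero (pow_ne_zero _ hp.ne_zero), ← zz_smul hp, h]
  rfl

theorem zz_step (hp : p.Prime) (j k : ℕ) : p ^ j • zz p (k + j) hp = zz p k hp := by
  apply Subtype.ext
  rw [← natCast_zsmul, zz_smul]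
  show _ = frac ((p ^ k : ℕ) : ℚ) 1
  rw [frac_apply, frac_apply]
  congr 1
  have hp0 : (p : ℚ) ≠ 0 := Nat.cast_ne_zero.2 hp.ne_zero
  push_cast
  rw [pow_add]
  field_simp

theorem zz_kill (hp : p.Prime) (k : ℕ) : p ^ k • zz p k hp = 0 := by
  apply Subtype.ext
  rw [← natCast_zsmul, zz_smul]
  show _ = (0 : QZ)
  rw [frac_zero (pow_ne_zero _ hp.ne_zero)]

theorem eq_zz (hp : p.Prime) {k : ℕ} {y : Pruefer p} (h : p ^ k • y = 0) :
    ∃ n : ℤ, y = n • zz p k hp := by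
  have h1 : p ^ k • (y : QZ) = 0 := congrArg Subtype.val h
  obtain ⟨n, hn⟩ := eq_frac (pow_ne_zero _ hp.ne_zero) h1
  exact ⟨n, Subtype.ext (by rw [zz_smul, hn])⟩

/-- homomorphisms of `ℤ(p^∞)` into divisible groups -/
theorem exists_zz (hp : p.Prime) {E : Type} [AddCommGroup E] (hE : Dvb E) (k : ℕ) (d : E)
    (hd : p ^ k • d = 0) : ∃ g : Pruefer p →+ E, g (zz p k hp) = d := by
  obtain ⟨g, hg⟩ := fact hE (zmultiplesHom (Pruefer p) (zz p k hp)) (zmultiplesHom E d) (by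
    intro n hn
    exact zsmul_of_dvd hd (zz_zero hp hn))
  refine ⟨g, ?_⟩
  have := hg 1
  simpa using this

/-- division by powers of `p` -/
theorem exists_div (hp : p.Prime) {E : Type} [AddCommGroup E] (hE : Dvb E) (k : ℕ)
    (g : Pruefer p →+ E) (hg : g (zz p k hp) = 0) :
    ∃ τ : Pruefer p →+ E, ∀ y, p ^ k • τ y = g y := by
  obtain ⟨τ, hτ⟩ := fact hE (p ^ k • AddMonoidHom.id (Pruefer p)) g (by
    intro y hy
    have h1 : p ^ k • y = 0 := hy
    obtain ⟨n, rfl⟩ := eq_zz hp h1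
    rw [map_zsmul, hg, smul_zero])
  refine ⟨τ, fun y => ?_⟩
  rw [← map_nsmul]
  exact hτ y

theorem cyc_torsion (p : ℕ) (b : Cyc p) : ∃ j : ℕ, p ^ j • b = 0 := by
  classical
  induction b using DirectSum.induction_on with
  | zero => exact ⟨0, smul_zero _⟩
  | of i x =>
    refine ⟨i + 1, ?_⟩
    have h1 : p ^ (i + 1) • x = 0 := by
      rw [nsmul_eq_mul, ZMod.natCast_self, zero_mul]
    rw [← map_nsmul, h1, map_zero]
  | add x y hx hy =>
    obtain ⟨k, hk⟩ := hx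
    obtain ⟨j, hj⟩ := hy
    refine ⟨k + j, ?_⟩
    rw [smul_add, pow_add, mul_smul, mul_smul, hj, smul_zero, add_zero, smul_comm, hk, smul_zero]

theorem cyc_countable (hp : p.Prime) : Countable (Cyc p) := by
  have h : ∀ n : ℕ, Countable (ZMod (p ^ (n + 1))) := by
    intro n
    have : NeZero (p ^ (n + 1)) := ⟨pow_ne_zero _ hp.ne_zero⟩
    infer_instance
  exact inferInstanceAs (Countable (Π₀ n : ℕ, ZMod (p ^ (n + 1))))

theorem cyc_elt (hp : p.Prime) (N : ℕ) :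
    ∃ e : Cyc p, ∀ b : Cyc p, p ^ N • e ≠ p ^ (N + 1) • b := by
  classical
  refine ⟨DirectSum.of (fun n : ℕ => ZMod (p ^ (n + 1))) N 1, fun b h => ?_⟩
  have h1 : (p ^ N • (DirectSum.of (fun n : ℕ => ZMod (p ^ (n + 1))) N 1)) N =
      (p ^ (N + 1) • b) N := by rw [h]
  have h2 : (p ^ (N + 1) • b) N = p ^ (N + 1) • b N := DFinsupp.nsmul_apply _ _ _
  have h3 : (p ^ N • (DirectSum.of (fun n : ℕ => ZMod (p ^ (n + 1))) N 1)) N =
      p ^ N • (1 : ZMod (p ^ (N + 1))) := by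
    rw [← map_nsmul, DirectSum.of_eq_same]
  rw [h2, h3, nsmul_eq_mul, nsmul_eq_mul, ZMod.natCast_self, zero_mul, mul_one,
    ZMod.natCast_eq_zero_iff] at h1
  exact absurd (Nat.le_of_dvd (pow_pos hp.pos _) h1)
    (not_le.2 (Nat.pow_lt_pow_right hp.one_lt (Nat.lt_succ_self N)))

end

/-- `G₂ = Ext(ℤ(p^∞), ⊕ ℤ/pⁿ)` -/
theorem G2_facts (p : ℕ) (hp : p.Prime) (G : Type) [AddCommGroup G]
    (h : IsExtOf G (Pruefer p) (Cyc p)) :
    (∀ x : G, ∃ (t y : G) (k : ℕ), p ^ k • t = 0 ∧ x = t + p • y) ∧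
      (∃ s : ℕ → G, ∀ x, ∃ (n : ℕ) (y : G), x = s n + p • y) ∧
      ∀ N : ℕ, ∃ x : G, ∀ y, p ^ N • x ≠ p ^ (N + 1) • y := by
  have hcB : Countable (Cyc p) := cyc_countable hp
  obtain ⟨E, _, i, hi, hE, hcard⟩ := hull (Cyc p)
  have hcE : Countable E := by
    rw [← Cardinal.mk_le_aleph0_iff]
    exact hcard.trans (max_le (Cardinal.mk_le_aleph0_iff.2 hcB) le_rfl)
  obtain ⟨e⟩ := ext_iso h i hi hE
  set X := E ⧸ i.range with hX
  let π : E →+ X := QuotientAddGroup.mk' i.range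
  have hπ : Function.Surjective π := QuotientAddGroup.mk'_surjective _
  have hπ0 : ∀ d : E, π d = 0 ↔ ∃ b, i b = d := by
    intro d
    show QuotientAddGroup.mk' i.range d = 0 ↔ _
    rw [QuotientAddGroup.mk'_apply, QuotientAddGroup.eq_zero_iff]
    rfl
  have hXd : Dvb X := by
    intro n hn x
    obtain ⟨d, rfl⟩ := hπ x
    obtain ⟨y, rfl⟩ := hE n hn d
    exact ⟨π y, (map_nsmul π n y).symm⟩
  have hcX : Countable X := hπ.countable
  let q : (Pruefer p →+ X) →+ G := e.symm.toAddMonoidHom.comp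
    (QuotientAddGroup.mk' (Lft π (⊤ : AddSubgroup (Pruefer p))))
  have hq : Function.Surjective q := e.symm.surjective.comp (QuotientAddGroup.mk'_surjective _)
  have hq0 : ∀ f : Pruefer p →+ X, q f = 0 ↔ ∃ g : Pruefer p →+ E, ∀ x, f x = π (g x) := by
    intro f
    have h4 : q f = 0 ↔ f ∈ Lft π (⊤ : AddSubgroup (Pruefer p)) := by
      show e.symm (QuotientAddGroup.mk' (Lft π (⊤ : AddSubgroup (Pruefer p))) f) = 0 ↔ _
      rw [AddEquiv.map_eq_zero_iff, QuotientAddGroup.mk'_apply, QuotientAddGroup.eq_zero_iff]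
    rw [h4, mem_Lft]
    exact ⟨fun ⟨g, hg⟩ => ⟨g, fun x => (hg x trivial).symm⟩, fun ⟨g, hg⟩ => ⟨g, fun x _ =>
      (hg x).symm⟩⟩
  -- homomorphisms killing `1/p` are divisible by `p`
  have hdivp : ∀ f : Pruefer p →+ X, f (zz p 1 hp) = 0 → ∃ f' : Pruefer p →+ X, f = p • f' := by
    intro f hf
    obtain ⟨f', hf'⟩ := exists_div hp hXd 1 f hf
    refine ⟨f', ?_⟩
    ext y
    rw [← hf' y, pow_one]
    rfl
  refine ⟨?_, ?_, ?_⟩
  · intro x
    obtain ⟨f, rfl⟩ := hq x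
    obtain ⟨d, hd⟩ := hπ (f (zz p 1 hp))
    have h1 : π (p • d) = 0 := by
      have h2 : p ^ 1 • zz p 1 hp = 0 := zz_kill hp 1
      rw [pow_one] at h2
      rw [map_nsmul, hd, ← map_nsmul, h2, map_zero]
    obtain ⟨b, hb⟩ := (hπ0 _).1 h1
    obtain ⟨j, hj⟩ := cyc_torsion p b
    have hd1 : p ^ (j + 1) • p • d = 0 := by
      rw [← hb, ← map_nsmul, pow_succ', mul_smul, hj, smul_zero, map_zero]
    obtain ⟨g, hg⟩ := exists_zz hp hE (j + 2) d (by
      rw [pow_succ, mul_smul, hd1])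
    have hzz : zz p (j + 1) hp = p • zz p (j + 2) hp := by
      have := zz_step hp 1 (j + 1)
      rw [pow_one] at this
      exact this.symm
    obtain ⟨τ, hτ⟩ := exists_div hp hXd (j + 1) (π.comp g) (by
      show π (g (zz p (j + 1) hp)) = 0
      rw [hzz, map_nsmul, hg, h1])
    have hτ1 : τ (zz p 1 hp) = f (zz p 1 hp) := by
      have h2 : p ^ (j + 1) • zz p (1 + (j + 1)) hp = zz p 1 hp := zz_step hp (j + 1) 1
      rw [← h2, map_nsmul, hτ]
      show π (g (zz p (1 + (j + 1)) hp)) = _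
      rw [show 1 + (j + 1) = j + 2 by ring, hg, hd, ← h2]
      congr 2
      rw [show 1 + (j + 1) = j + 2 by ring]
    obtain ⟨f', hf'⟩ := hdivp (f - τ) (by rw [AddMonoidHom.sub_apply, hτ1, sub_self])
    refine ⟨q τ, q f', j + 1, ?_, ?_⟩
    · rw [← map_nsmul, hq0]
      exact ⟨g, hτ⟩
    · rw [← map_nsmul, ← hf', ← map_add, add_sub_cancel]
  · obtain ⟨c, hc⟩ := exists_surjective_nat X
    have hch : ∀ n : ℕ, ∃ s : Pruefer p →+ X, ∀ f : Pruefer p →+ X, f (zz p 1 hp) = c n →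
        s (zz p 1 hp) = c n := by
      intro n
      by_cases h : ∃ s : Pruefer p →+ X, s (zz p 1 hp) = c n
      · obtain ⟨s, hs⟩ := h
        exact ⟨s, fun _ _ => hs⟩
      · exact ⟨0, fun f hf => (h ⟨f, hf⟩).elim⟩
    choose s hs using hch
    refine ⟨fun n => q (s n), fun x => ?_⟩
    obtain ⟨f, rfl⟩ := hq x
    obtain ⟨n, hn⟩ := hc (f (zz p 1 hp))
    obtain ⟨f', hf'⟩ := hdivp (f - s n) (by
      rw [AddMonoidHom.sub_apply, hs n f hn.symm, hn, sub_self])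
    refine ⟨n, q f', ?_⟩
    rw [← map_nsmul, ← hf', ← map_add, add_sub_cancel]
  · intro N
    obtain ⟨b, hb⟩ := cyc_elt hp N
    obtain ⟨d, hd⟩ := hE (p ^ (N + 1)) (pow_ne_zero _ hp.ne_zero) (i b)
    obtain ⟨f, hf⟩ := exists_zz hp hXd (N + 1) (π d) (by
      rw [← map_nsmul, hd, hπ0]
      exact ⟨b, rfl⟩)
    refine ⟨q f, fun y hy => ?_⟩
    obtain ⟨f', rfl⟩ := hq y
    rw [← map_nsmul, ← map_nsmul, ← sub_eq_zero, ← map_sub, hq0] at hy
    obtain ⟨g, hg⟩ := hy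
    have h1 := hg (zz p (N + 1) hp)
    have h2 : p ^ N • f (zz p (N + 1) hp) - p ^ (N + 1) • f' (zz p (N + 1) hp) =
        π (g (zz p (N + 1) hp)) := h1
    have hz := zz_kill hp (N + 1)
    rw [← map_nsmul f', hz, map_zero, sub_zero, hf, ← map_nsmul, ← sub_eq_zero, ← map_sub,
      hπ0] at h2
    obtain ⟨b', hb'⟩ := h2
    apply hb b'
    apply hi
    rw [map_nsmul, map_nsmul, hb', smul_sub, ← map_nsmul g, hz, map_zero, sub_zero, ← hd,
      smul_comm]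

end Pool.Agent.ExtCnt
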