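import Pool.Agent.ExtCnt.G1
import Pool.Agent.ExtCnt.G2
import Pool.Agent.ExtCnt.MainC

/-! `V ⊕ Ext(ℤ(p^∞), ⊕ ℤ/pⁿ)`, `V` divisible with an element of order `p`, is not `Ext(C,D)` with
`C/tC` a direct sum of countable groups. -/

set_option autoImplicit false

namespace Pool.Agent.ExtCnt

open Cardinal Pool.Agent.ExtSum

theorem not_iso_V (p : ℕ) (hp : p.Prime) (V G A B : Type) [AddCommGroup V] [AddCommGroup G]
    [AddCommGroup A] [AddCommGroup B] (hG : IsExtOf G (Pruefer p) (Cyc p)) (hdiv : ∀ n : ℕ, n ≠ 0 → ∀ x : V, ∃ y, n • y = x)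
    (hpos : ∃ v : V, v ≠ 0 ∧ p • v = 0)
    (h : IsExtOf (V × G) A B) :
    ¬ DSC (A ⧸ AddCommGroup.torsion A) := by
  intro hcnt
  obtain ⟨D, C, _, _, π, hπ, hD, hC, hred, ⟨e⟩⟩ := ext_pres h
  obtain ⟨v, hv0, hv⟩ := hpos
  obtain ⟨h1, ⟨s, h2⟩, h3⟩ := G2_facts p hp G hG
  apply hv0
  have key := main_group hD hC hπ hred hcnt p hp e (by
    rintro ⟨x, y⟩
    obtain ⟨x', rfl⟩ := hdiv p hp.ne_zero x
    obtain ⟨t, y', k, ht, rfl⟩ := h1 y
    refine ⟨(0, t), (x', y'), k, ?_, ?_⟩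
    · exact Prod.ext (smul_zero (p ^ k) : p ^ k • (0 : V) = 0) ht
    · exact Prod.ext (zero_add (p • x')).symm rfl) ⟨fun n => (0, s n), by
    rintro ⟨x, y⟩
    obtain ⟨x', rfl⟩ := hdiv p hp.ne_zero x
    obtain ⟨n, y', rfl⟩ := h2 y
    exact ⟨n, (x', y'), Prod.ext (zero_add (p • x')).symm rfl⟩⟩ (by
    intro N
    obtain ⟨x, hx⟩ := h3 N
    refine ⟨(0, x), ?_⟩
    rintro ⟨y, y'⟩ h
    exact hx y' (congrArg Prod.snd h))
    (AddMonoidHom.inl V G).range (by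
      rintro n hn _ ⟨x, rfl⟩
      obtain ⟨y, rfl⟩ := hdiv n hn x
      exact ⟨_, ⟨y, rfl⟩, by rw [← map_nsmul]⟩) (v, 0) ⟨v, rfl⟩
      (Prod.ext hv (smul_zero p : p • (0 : G) = 0))
  exact congrArg Prod.fst key

theorem Zinv_countable (q : ℕ) : Countable (Zinv q) := inferInstance

theorem Pruefer_countable (p : ℕ) : Countable (Pruefer p) := by
  have : Countable QZ := qz_surj.countable
  exact Subtype.countable

end Pool.Agent.ExtCnt
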