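import Pool.Agent.ExtSum.Hom

/-! Characters: the group `ℚ/ℤ` and lifting of homomorphisms into a cyclic group of prime order. -/

set_option autoImplicit false

namespace Pool.Agent.ExtCnt

open Pool.Agent.ExtSum

/-- `ℚ/ℤ` -/
abbrev QZ : Type := ℚ ⧸ (Int.castAddHom ℚ).range

/-- the projection `ℚ → ℚ/ℤ` -/
def qz : ℚ →+ QZ := QuotientAddGroup.mk' (Int.castAddHom ℚ).range

theorem qz_surj : Function.Surjective qz := QuotientAddGroup.mk'_surjective _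

theorem qz_zero {r : ℚ} : qz r = 0 ↔ ∃ n : ℤ, (n : ℚ) = r := by
  unfold qz
  rw [QuotientAddGroup.mk'_apply, QuotientAddGroup.eq_zero_iff]
  rfl

theorem dvb_Q : Dvb ℚ := by
  intro n hn x
  refine ⟨x / n, ?_⟩
  have : (n : ℚ) ≠ 0 := Nat.cast_ne_zero.2 hn
  rw [nsmul_eq_mul]
  field_simp

theorem dvb_QZ : Dvb QZ := by
  intro n hn x
  obtain ⟨r, rfl⟩ := qz_surj x
  obtain ⟨s, rfl⟩ := dvb_Q n hn r
  exact ⟨qz s, (map_nsmul qz n s).symm⟩

/-- the homomorphism `n ↦ n/k mod 1` -/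
def frac (k : ℚ) : ℤ →+ QZ := qz.comp ((AddMonoidHom.mulLeft k⁻¹).comp (Int.castAddHom ℚ))

theorem frac_apply (k : ℚ) (n : ℤ) : frac k n = qz (n / k) := by
  show qz (k⁻¹ * n) = qz (n / k)
  rw [div_eq_inv_mul]

theorem frac_zero {k : ℕ} (hk : k ≠ 0) {n : ℤ} : frac k n = 0 ↔ (k : ℤ) ∣ n := by
  rw [frac_apply, qz_zero]
  have hk' : (k : ℚ) ≠ 0 := Nat.cast_ne_zero.2 hk
  constructor
  · rintro ⟨m, hm⟩
    refine ⟨m, ?_⟩
    have h1 : (n : ℚ) = k * m := by rw [hm]; field_simp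
    exact_mod_cast h1
  · rintro ⟨m, rfl⟩
    refine ⟨m, ?_⟩
    push_cast
    field_simp

/-- an element of `ℚ/ℤ` killed by `k` is `n/k` -/
theorem eq_frac {k : ℕ} (hk : k ≠ 0) {u : QZ} (hu : k • u = 0) : ∃ n : ℤ, u = frac k n := by
  obtain ⟨r, rfl⟩ := qz_surj u
  rw [← map_nsmul, qz_zero] at hu
  obtain ⟨n, hn⟩ := hu
  refine ⟨n, ?_⟩
  rw [frac_apply, hn, nsmul_eq_mul]
  have hk' : (k : ℚ) ≠ 0 := Nat.cast_ne_zero.2 hk
  congr 1
  field_simp

/-- the order of an element killed by a prime -/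
theorem dvd_of_zsmul {X : Type} [AddCommGroup X] {p : ℕ} (hp : p.Prime) {c : X} (hc : c ≠ 0)
    (hpc : p • c = 0) {n : ℤ} (hn : n • c = 0) : (p : ℤ) ∣ n := by
  by_contra h
  obtain ⟨a, b, hab⟩ : IsCoprime (p : ℤ) n := by
    refine Int.isCoprime_iff_gcd_eq_one.2 ?_
    rw [Int.gcd_eq_natAbs, Int.natAbs_natCast]
    exact (Nat.Prime.coprime_iff_not_dvd hp).2 fun h1 => h (Int.natCast_dvd.2 h1)
  apply hc
  have h1 : (a * p + b * n) • c = 0 := by
    rw [add_smul, mul_smul, mul_smul, hn, natCast_zsmul, hpc, smul_zero, smul_zero, add_zero]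
  rwa [hab, one_smul] at h1

theorem zsmul_of_dvd {X : Type} [AddCommGroup X] {k : ℕ} {c : X}
    (hpc : k • c = 0) {n : ℤ} (hn : (k : ℤ) ∣ n) : n • c = 0 := by
  obtain ⟨m, rfl⟩ := hn
  rw [mul_comm, mul_smul, natCast_zsmul, hpc, smul_zero]

/-- Let `F` be torsion-free, `g : F → X` with `p g = 0`, and let `c ∈ X` have order `p` and be the
image of an element of `E` of `p`-power order.  There is `h : F → E` with `p π h = 0` such that
`π h = g` wherever `g` has values in `ℤ c`. -/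
theorem os {F E X : Type} [AddCommGroup F] [AddCommGroup E] [AddCommGroup X] (π : E →+ X)
    (hE : Dvb E) (p : ℕ) (hp : p.Prime) (htf : ∀ n : ℕ, n ≠ 0 → ∀ x : F, n • x = 0 → x = 0)
    (g : F →+ X) (hg : ∀ u, p • g u = 0) (c : X) (hc : c ≠ 0) (hpc : p • c = 0) (q₀ : E) (m : ℕ)
    (hq : π q₀ = c) (hm : p ^ m • q₀ = 0) :
    ∃ h : F →+ E, (∀ u, p • π (h u) = 0) ∧ ∀ u, ∀ a : ℤ, g u = a • c → π (h u) = a • c := by
  have hpm : p ^ m ≠ 0 := pow_ne_zero _ hp.ne_zero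
  have hpm' : p ^ (m + 1) ≠ 0 := pow_ne_zero _ hp.ne_zero
  have hm' : p ^ (m + 1) • q₀ = 0 := by rw [pow_succ', mul_smul, hm, smul_zero]
  -- a character of `X` with value `1/p` at `c`
  obtain ⟨ω, hω⟩ := fact dvb_QZ (zmultiplesHom X c) (frac p) (by
    intro n hn
    rw [frac_zero hp.ne_zero]
    exact dvd_of_zsmul hp hc hpc hn)
  have hω' : ∀ a : ℤ, ω (a • c) = frac p a := fun a => hω a
  -- divide it by `p^m`
  obtain ⟨ψ, hψ⟩ := fact (A := F) (Y := F) dvb_QZ (p ^ m • AddMonoidHom.id F) (ω.comp g) (by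
    intro a ha
    have : p ^ m • a = 0 := ha
    rw [htf _ hpm a this, map_zero])
  have hψ' : ∀ u, p ^ m • ψ u = ω (g u) := by
    intro u
    rw [← map_nsmul]
    exact hψ u
  obtain ⟨θ, hθ⟩ := fact hE (frac ((p ^ (m + 1) : ℕ) : ℚ)) (zmultiplesHom E q₀) (by
    intro n hn
    rw [frac_zero hpm'] at hn
    show n • q₀ = 0
    exact zsmul_of_dvd hm' hn)
  have hθ' : ∀ n : ℤ, θ (frac ((p ^ (m + 1) : ℕ) : ℚ) n) = n • q₀ := fun n => hθ n
  have key : ∀ u, ∃ n : ℤ, ψ u = frac ((p ^ (m + 1) : ℕ) : ℚ) n := by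
    intro u
    apply eq_frac hpm'
    rw [pow_succ', mul_smul, hψ', ← map_nsmul, hg, map_zero]
  refine ⟨θ.comp ψ, fun u => ?_, fun u a ha => ?_⟩
  · obtain ⟨n, hn⟩ := key u
    rw [AddMonoidHom.comp_apply, hn, hθ', map_zsmul, hq, smul_comm, hpc, smul_zero]
  · obtain ⟨n, hn⟩ := key u
    rw [AddMonoidHom.comp_apply, hn, hθ', map_zsmul, hq, ← sub_eq_zero, ← sub_smul]
    refine zsmul_of_dvd hpc ?_
    rw [← frac_zero hp.ne_zero, map_sub, sub_eq_zero, ← hω' a, ← ha, ← hψ' u, hn, frac_apply,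
      frac_apply, ← map_nsmul]
    congr 1
    rw [nsmul_eq_mul]
    have h1 : (p : ℚ) ≠ 0 := Nat.cast_ne_zero.2 hp.ne_zero
    push_cast
    field_simp
    ring

end Pool.Agent.ExtCnt
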