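import Pool.Agent.ExtCnt.Circ
import Pool.Agent.ExtSum.Pres

/-! `Ext(A,B)` for given groups `A`, `B`; the groups `ℤ[1/q]`, `ℤ(p^∞)`, `⊕ ℤ/pⁿ`. -/

set_option autoImplicit false

namespace Pool.Agent.ExtCnt

open Cardinal Pool.Agent.ExtSum DirectSum

/-- `G ≅ Ext(A,B)`: for some free presentation `q : ℤ^(ι) → A` of `A`, with kernel `R`, the group
`G` is `Hom(R,B)` modulo the restrictions of the homomorphisms `ℤ^(ι) → B`. -/
def IsExtOf (G A B : Type) [AddCommGroup G] [AddCommGroup A] [AddCommGroup B] : Prop :=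
  ∃ (ι : Type) (q : (ι →₀ ℤ) →+ A) (Φ : (q.ker →+ B) →+ G), Function.Surjective q ∧
    Function.Surjective Φ ∧ ∀ φ, Φ φ = 0 ↔ ∃ ψ : (ι →₀ ℤ) →+ B, ∀ x : q.ker, ψ x = φ x

/-- `ℤ[1/q]` -/
def Zinv (q : ℕ) : AddSubgroup ℚ where
  carrier := {x | ∃ (k : ℕ) (n : ℤ), (q : ℚ) ^ k * x = n}
  zero_mem' := ⟨0, 0, by simp⟩
  add_mem' := by
    rintro x y ⟨k, n, h⟩ ⟨l, m, h'⟩
    refine ⟨k + l, q ^ l * n + q ^ k * m, ?_⟩
    push_cast
    rw [← h, ← h', pow_add]
    ring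
  neg_mem' := by
    rintro x ⟨k, n, h⟩
    exact ⟨k, -n, by push_cast; rw [← h]; ring⟩

/-- the Prüfer group `ℤ(p^∞)`: the elements of `ℚ/ℤ` of `p`-power order -/
def Pruefer (p : ℕ) : AddSubgroup (ℚ ⧸ (Int.castAddHom ℚ).range) where
  carrier := {u | ∃ k : ℕ, p ^ k • u = 0}
  zero_mem' := ⟨0, smul_zero _⟩
  add_mem' := by
    rintro a b ⟨k, hk⟩ ⟨j, hj⟩
    refine ⟨k + j, ?_⟩
    rw [smul_add, pow_add, mul_smul, mul_smul, hj, smul_zero, add_zero, smul_comm, hk, smul_zero]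
  neg_mem' := by
    rintro a ⟨k, hk⟩
    exact ⟨k, by rw [smul_neg, hk, neg_zero]⟩

/-- `⊕_{n ≥ 1} ℤ/pⁿ` -/
abbrev Cyc (p : ℕ) : Type := ⨁ n : ℕ, ZMod (p ^ (n + 1))

section
variable {G A B E : Type} [AddCommGroup G] [AddCommGroup A] [AddCommGroup B] [AddCommGroup E]

theorem extOf_equiv (h : IsExtOf G A B) : ∃ (ι : Type) (q : (ι →₀ ℤ) →+ A),
    Function.Surjective q ∧
      Nonempty (G ≃+ ((↥q.ker →+ B) ⧸ (AddMonoidHom.compHom' (P := B) q.ker.subtype).range)) := by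
  obtain ⟨ι, q, Φ, hq, hΦ, hker⟩ := h
  refine ⟨ι, q, hq, ⟨?_⟩⟩
  have h1 : Φ.ker = (AddMonoidHom.compHom' (P := B) q.ker.subtype).range := by
    ext φ
    rw [AddMonoidHom.mem_ker, hker]
    constructor
    · rintro ⟨ψ, hψ⟩
      exact ⟨ψ, by ext x; exact hψ x⟩
    · rintro ⟨ψ, rfl⟩
      exact ⟨ψ, fun x => rfl⟩
  exact ((QuotientAddGroup.quotientAddEquivOfEq h1.symm).trans
    (QuotientAddGroup.quotientKerEquivOfSurjective Φ hΦ)).symm

/-- the groups `Ext(A,B)` exist -/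
theorem exists_extOf (A B : Type) [AddCommGroup A] [AddCommGroup B] :
    ∃ (G : Type) (_ : AddCommGroup G), IsExtOf G A B := by
  let q : (A →₀ ℤ) →+ A := Finsupp.liftAddHom (fun a : A => (zmultiplesHom A a))
  have hq : Function.Surjective q := by
    intro a
    refine ⟨Finsupp.single a 1, ?_⟩
    rw [Finsupp.liftAddHom_apply_single]
    exact one_smul ℤ a
  refine ⟨(↥q.ker →+ B) ⧸ (AddMonoidHom.compHom' (P := B) q.ker.subtype).range, inferInstance, A, q,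
    QuotientAddGroup.mk' _, hq, QuotientAddGroup.mk'_surjective _, fun φ => ?_⟩
  rw [QuotientAddGroup.mk'_apply, QuotientAddGroup.eq_zero_iff]
  constructor
  · rintro ⟨ψ, rfl⟩
    exact ⟨ψ, fun x => rfl⟩
  · rintro ⟨ψ, hψ⟩
    exact ⟨ψ, by ext x; exact hψ x⟩

/-- `Ext(A,B)` through a divisible group containing `B` -/
theorem ext_iso₀ {ι : Type} (q : (ι →₀ ℤ) →+ A) (hq : Function.Surjective q) (i : B →+ E)
    (hi : Function.Injective i) (hE : Dvb E) :
    Nonempty (((↥q.ker →+ B) ⧸ (AddMonoidHom.compHom' (P := B) q.ker.subtype).range) ≃+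
      ((A →+ (E ⧸ i.range)) ⧸ Lft (QuotientAddGroup.mk' i.range) (⊤ : AddSubgroup A))) := by
  obtain ⟨e₁⟩ := iso_X q.ker i hi (QuotientAddGroup.mk' i.range)
    (QuotientAddGroup.mk'_surjective _) (QuotientAddGroup.ker_mk' i.range).symm (by
      intro h
      obtain ⟨h', hh'⟩ := fact hE q.ker.subtype (i.comp h) (by
        intro a ha
        have ha' : a = 0 := Subtype.ext ha
        rw [ha', map_zero])
      exact ⟨h', hh'⟩)
  obtain ⟨e₃⟩ := iso_congr (QuotientAddGroup.quotientKerEquivOfSurjective q hq)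
    (QuotientAddGroup.mk' i.range)
  exact ⟨e₁.trans e₃⟩

theorem ext_iso (h : IsExtOf G A B) (i : B →+ E) (hi : Function.Injective i) (hE : Dvb E) :
    Nonempty (G ≃+
      ((A →+ (E ⧸ i.range)) ⧸ Lft (QuotientAddGroup.mk' i.range) (⊤ : AddSubgroup A))) := by
  obtain ⟨ι, q, hq, ⟨e⟩⟩ := extOf_equiv h
  obtain ⟨e'⟩ := ext_iso₀ q hq i hi hE
  exact ⟨e.trans e'⟩

/-- `Ext(A,B)` through a divisible group containing the reduced part of `B` -/
theorem ext_pres (h : IsExtOf G A B) :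
    ∃ (D C : Type) (_ : AddCommGroup D) (_ : AddCommGroup C) (π : D →+ C),
      Function.Surjective π ∧ Dvb D ∧ Dvb C ∧ Red π.ker ∧
      Nonempty (G ≃+ ((A →+ C) ⧸ Lft π (⊤ : AddSubgroup A))) := by
  obtain ⟨ι, q, hq, ⟨e⟩⟩ := extOf_equiv h
  obtain ⟨B', _, hB, ⟨e₁⟩⟩ := split_reduced (B := B) q.ker
  obtain ⟨D, _, i, hi, hD, -⟩ := hull B'
  obtain ⟨e₂⟩ := ext_iso₀ q hq i hi hD
  have hker : i.range = (QuotientAddGroup.mk' i.range).ker :=
    (QuotientAddGroup.ker_mk' i.range).symm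
  refine ⟨D, D ⧸ i.range, inferInstance, inferInstance, QuotientAddGroup.mk' i.range,
    QuotientAddGroup.mk'_surjective _, hD, ?_, ?_, ⟨(e.trans e₁).trans e₂⟩⟩
  · intro n hn x
    obtain ⟨d, rfl⟩ := QuotientAddGroup.mk'_surjective _ x
    obtain ⟨y, rfl⟩ := hD n hn d
    exact ⟨_, (map_nsmul (QuotientAddGroup.mk' i.range) n y).symm⟩
  · intro S hS
    have hmem : ∀ b, i b ∈ (QuotientAddGroup.mk' i.range).ker := fun b => hker ▸ ⟨b, rfl⟩
    let k : B' →+ (QuotientAddGroup.mk' i.range).ker :=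
      i.codRestrict (QuotientAddGroup.mk' i.range).ker hmem
    have hk : ∀ z : (QuotientAddGroup.mk' i.range).ker, ∃ b, k b = z := by
      rintro ⟨z, hz⟩
      have hz' : z ∈ i.range := by rw [hker]; exact hz
      obtain ⟨b, hb⟩ := hz'
      exact ⟨b, Subtype.ext hb⟩
    have hkinj : Function.Injective k := by
      intro a b hab
      exact hi (congrArg Subtype.val hab)
    have h1 := hB (S.comap k) (by
      intro n hn x hx
      obtain ⟨y, hy, hxy⟩ := hS n hn (k x) hx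
      obtain ⟨b, rfl⟩ := hk y
      refine ⟨b, hy, hkinj ?_⟩
      rw [map_nsmul]
      exact hxy)
    rw [eq_bot_iff]
    intro z hz
    obtain ⟨b, rfl⟩ := hk z
    have h2 : b ∈ S.comap k := hz
    rw [h1, AddSubgroup.mem_bot] at h2
    rw [AddSubgroup.mem_bot, h2, map_zero]

end

end Pool.Agent.ExtCnt
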