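import Pool.Agent.ExtCnt.Defs

/-! The group `Ext(ℤ[1/q], ℤ)`: it is divisible and has an element of order `p`. -/

set_option autoImplicit false

namespace Pool.Agent.ExtCnt

open Cardinal Pool.Agent.ExtSum

/-- `Ext` of a torsion-free group is divisible -/
theorem ext_div {A E X : Type} [AddCommGroup A] [AddCommGroup E] [AddCommGroup X] (π : E →+ X)
    (hX : Dvb X) (htf : ∀ n : ℕ, n ≠ 0 → ∀ x : A, n • x = 0 → x = 0) (n : ℕ) (hn : n ≠ 0)
    (x : (A →+ X) ⧸ Lft π (⊤ : AddSubgroup A)) : ∃ y, n • y = x := by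
  obtain ⟨f, rfl⟩ := QuotientAddGroup.mk'_surjective _ x
  obtain ⟨f', hf'⟩ := fact hX (n • AddMonoidHom.id A) f (by
    intro a ha
    have : n • a = 0 := ha
    rw [htf n hn a this, map_zero])
  refine ⟨QuotientAddGroup.mk' _ f', ?_⟩
  rw [← map_nsmul]
  congr 1
  ext a
  show n • f' a = f a
  rw [← map_nsmul]
  exact hf' a

theorem Zinv_tf (q : ℕ) (n : ℕ) (hn : n ≠ 0) (x : Zinv q) (h : n • x = 0) : x = 0 := by
  apply Subtype.ext
  have h1 : n • (x : ℚ) = 0 := congrArg Subtype.val h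
  rw [nsmul_eq_mul] at h1
  rcases mul_eq_zero.1 h1 with h2 | h2
  · exact absurd h2 (Nat.cast_ne_zero.2 hn)
  · exact h2

theorem Zinv_ext_pos (p q : ℕ) (hp : p.Prime) (hq : q.Prime) (hpq : p ≠ q) :
    ∃ v : (Zinv q →+ QZ) ⧸ Lft qz (⊤ : AddSubgroup (Zinv q)), v ≠ 0 ∧ p • v = 0 := by
  have hp0 : (p : ℚ) ≠ 0 := Nat.cast_ne_zero.2 hp.ne_zero
  have hq0 : (q : ℚ) ≠ 0 := Nat.cast_ne_zero.2 hq.ne_zero
  have hcop : ∀ k : ℕ, ∀ n : ℤ, (p : ℤ) ∣ (q : ℤ) ^ k * n → (p : ℤ) ∣ n := by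
    intro k n h
    have hpp : Prime (p : ℤ) := Nat.prime_iff_prime_int.1 hp
    rcases hpp.dvd_or_dvd h with h1 | h1
    · exfalso
      have h2 := hpp.dvd_of_dvd_pow h1
      rw [Int.natCast_dvd_natCast] at h2
      exact hpq ((Nat.prime_dvd_prime_iff_eq hp hq).1 h2)
    · exact h1
  let one : Zinv q := ⟨1, 0, 1, by simp⟩
  obtain ⟨χ, hχ⟩ := fact (A := ℤ × Zinv q) (Y := Zinv q) dvb_QZ
    ((zmultiplesHom (Zinv q) one).comp (AddMonoidHom.fst ℤ (Zinv q)) +
      p • AddMonoidHom.snd ℤ (Zinv q))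
    ((frac p).comp (AddMonoidHom.fst ℤ (Zinv q))) (by
      rintro ⟨n, a, k, m, ha⟩ h
      have h1 : (n : ℚ) + p * a = 0 := by
        have h2 : ((n • one + p • (⟨a, k, m, ha⟩ : Zinv q) : Zinv q) : ℚ) = 0 :=
          congrArg Subtype.val h
        simpa [one] using h2
      show frac p n = 0
      rw [frac_zero hp.ne_zero]
      apply hcop k
      refine ⟨-m, ?_⟩
      have h2 : ((q : ℚ) ^ k * n) = p * (-m) := by
        rw [← ha]
        have : (n : ℚ) = - (p * a) := by linarith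
        rw [this]
        ring
      exact_mod_cast h2)
  have hχ1 : χ one = frac p 1 := by
    have h1 := hχ (1, 0)
    simpa using h1
  have hχp : ∀ a : Zinv q, p • χ a = 0 := by
    intro a
    have h1 := hχ (0, a)
    rw [← map_nsmul]
    simpa using h1
  refine ⟨QuotientAddGroup.mk' _ χ, ?_, ?_⟩
  · intro h
    rw [QuotientAddGroup.mk'_apply, QuotientAddGroup.eq_zero_iff] at h
    obtain ⟨g, hg⟩ := h
    have hint : ∀ a : Zinv q, ∃ n : ℤ, (n : ℚ) = p * g a := by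
      intro a
      have h1 : qz (p • g a) = 0 := by
        rw [map_nsmul, hg a trivial, hχp]
      rw [qz_zero, nsmul_eq_mul] at h1
      exact h1
    obtain ⟨n, hn⟩ := hint one
    have hdiv : ∀ k : ℕ, (q : ℤ) ^ k ∣ n := by
      intro k
      let a : Zinv q := ⟨(1 : ℚ) / q ^ k, k, 1, by field_simp; norm_num⟩
      obtain ⟨m, hm⟩ := hint a
      have h1 : one = q ^ k • a := by
        apply Subtype.ext
        show (1 : ℚ) = q ^ k • ((1 : ℚ) / q ^ k)
        rw [nsmul_eq_mul]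
        push_cast
        field_simp
      refine ⟨m, ?_⟩
      have h2 : (n : ℚ) = q ^ k * m := by
        rw [hn, hm, h1, map_nsmul, nsmul_eq_mul]
        push_cast
        ring
      exact_mod_cast h2
    have hn0 : n = 0 := by
      by_contra hne
      obtain ⟨k, hk⟩ : ∃ k : ℕ, n.natAbs < q ^ k := ⟨n.natAbs, Nat.lt_pow_self hq.one_lt⟩
      have h1 := Int.natAbs_dvd_natAbs.2 (hdiv k)
      rw [Int.natAbs_pow, Int.natAbs_natCast] at h1
      exact absurd (Nat.le_of_dvd (Int.natAbs_pos.2 hne) h1) (not_le.2 hk)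
    rw [hn0, Int.cast_zero] at hn
    have h3 : g one = 0 := by
      rcases mul_eq_zero.1 hn.symm with h4 | h4
      · exact absurd h4 hp0
      · exact h4
    have h4 : frac p 1 = 0 := by rw [← hχ1, ← hg one trivial, h3, map_zero]
    rw [frac_zero hp.ne_zero] at h4
    have h5 : (p : ℤ) ∣ ((1 : ℕ) : ℤ) := by simpa using h4
    exact hp.one_lt.ne' (Nat.dvd_one.1 (Int.natCast_dvd_natCast.1 h5))
  · rw [← map_nsmul]
    have h1 : p • χ = 0 := by
      ext a
      exact hχp a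
    rw [h1, map_zero]

/-- `G₁ = Ext(ℤ[1/q], ℤ)` -/
theorem G1_facts (p q : ℕ) (hp : p.Prime) (hq : q.Prime) (hpq : p ≠ q) (G : Type)
    [AddCommGroup G] (h : IsExtOf G (Zinv q) ℤ) :
    (∀ n : ℕ, n ≠ 0 → ∀ x : G, ∃ y, n • y = x) ∧ ∃ v : G, v ≠ 0 ∧ p • v = 0 := by
  obtain ⟨e⟩ := ext_iso h (Int.castAddHom ℚ) (fun a b h => Int.cast_injective h) dvb_Q
  constructor
  · intro n hn x
    obtain ⟨y, hy⟩ := ext_div (A := Zinv q) qz dvb_QZ (Zinv_tf q) n hn (e x)
    refine ⟨e.symm y, ?_⟩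
    rw [← map_nsmul]
    rw [AddEquiv.symm_apply_eq]
    exact hy
  · obtain ⟨v, hv0, hv⟩ := Zinv_ext_pos p q hp hq hpq
    refine ⟨e.symm v, ?_, ?_⟩
    · intro h
      apply hv0
      rw [AddEquiv.map_eq_zero_iff] at h
      exact h
    · rw [← map_nsmul]
      rw [AddEquiv.map_eq_zero_iff]
      exact hv

end Pool.Agent.ExtCnt
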